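import Pool.Agent.H91.SchLip

set_option autoImplicit false

open H91.SchLip in
theorem Pool.Agent.Results.MP_6ade77_an.Schatten.result :
    ∀ (H : Type) [NormedAddCommGroup H] [InnerProductSpace ℂ H] [CompleteSpace H],
    ¬ FiniteDimensional ℂ H → ∀ p : ℝ, 0 < p → Q1 H p :=
  main
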